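import Mathlib

/-!
# Excursion lemma (full KLS, part A2a)

Real sequences only.  `t k` is the square of the norm of the `k`-th power of the operator `T`,
`a x k = ‖T^k x‖²`, `α x k = ‖Alt T² T^k x‖²`, `z x k = |P₂ X_k|²`.
-/

namespace Pool.Agent.Lib.MP_8d00da_gt.F28

open Finset

/-- Reindexing of a shifted sum. -/
theorem shift_sum_le {n j : ℕ} {c e : ℕ → ℝ} (hc : ∀ k, 0 ≤ c k) (he : ∀ k, 0 ≤ e k) :
    ∑ k ∈ range n, (if j ≤ k then c k * e (k - j) else 0) ≤ ∑ m ∈ range n, c (m + j) * e m := by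
  rw [← sum_filter]
  have h1 : ∑ k ∈ (range n).filter (fun k => j ≤ k), c k * e (k - j) =
      ∑ k ∈ (range n).filter (fun k => j ≤ k), (fun m => c (m + j) * e m) (k - j) := by
    refine sum_congr rfl fun k hk => ?_
    have hk2 := (mem_filter.1 hk).2
    simp only [Nat.sub_add_cancel hk2]
  rw [h1, ← sum_image (f := fun m => c (m + j) * e m) (g := fun k => k - j)]
  · refine sum_le_sum_of_subset_of_nonneg ?_ fun m _ _ => mul_nonneg (hc _) (he _)
    intro m hm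
    obtain ⟨k, hk, rfl⟩ := mem_image.1 hm
    have := mem_range.1 (mem_filter.1 hk).1
    exact mem_range.2 (by omega)
  · intro k hk l hl hkl
    have h2 := (mem_filter.1 hk).2
    have h3 := (mem_filter.1 hl).2
    simp only at hkl
    omega

/-- The weighted sum of the window terms. -/
theorem window_sum_le {n : ℕ} {c e v : ℕ → ℝ} (hc : ∀ k, 0 ≤ c k) (he : ∀ k, 0 ≤ e k)
    (hv : ∀ k, 0 ≤ v k) (hcm : ∀ m j, c (m + j) ≤ (1 + j) * c m)
    (hV : 5 * ∑ j ∈ Icc 1 n, j * v j ≤ 1) :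
    ∑ k ∈ range n, c k * ∑ j ∈ Icc 1 k, v j * (e (k - j) + if j + 1 ≤ k then e (k - (j + 1)) else 0)
      ≤ ∑ m ∈ range n, c m * e m := by
  set E : ℝ := ∑ m ∈ range n, c m * e m with hE
  have hE0 : 0 ≤ E := sum_nonneg fun m _ => mul_nonneg (hc m) (he m)
  -- extend the inner sum to `Icc 1 n`
  have h1 : ∑ k ∈ range n, c k * ∑ j ∈ Icc 1 k,
      v j * (e (k - j) + if j + 1 ≤ k then e (k - (j + 1)) else 0) =
      ∑ j ∈ Icc 1 n, v j * ((∑ k ∈ range n, if j ≤ k then c k * e (k - j) else 0) +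
        ∑ k ∈ range n, if j + 1 ≤ k then c k * e (k - (j + 1)) else 0) := by
    have h2 : ∀ k ∈ range n, c k * ∑ j ∈ Icc 1 k,
        v j * (e (k - j) + if j + 1 ≤ k then e (k - (j + 1)) else 0) =
        ∑ j ∈ Icc 1 n, v j * ((if j ≤ k then c k * e (k - j) else 0) +
          if j + 1 ≤ k then c k * e (k - (j + 1)) else 0) := by
      intro k hk
      have hk := mem_range.1 hk
      rw [mul_sum]
      have h3 : Icc 1 k = (Icc 1 n).filter (fun j => j ≤ k) := by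
        ext j
        simp only [mem_Icc, mem_filter]
        omega
      rw [h3, sum_filter]
      refine sum_congr rfl fun j _ => ?_
      by_cases hj : j ≤ k
      · rw [if_pos hj, if_pos hj]
        by_cases hj1 : j + 1 ≤ k
        · rw [if_pos hj1, if_pos hj1]; ring
        · rw [if_neg hj1, if_neg hj1]; ring
      · have hj1 : ¬ (j + 1 ≤ k) := by omega
        rw [if_neg hj, if_neg hj, if_neg hj1]
        ring
    rw [sum_congr rfl h2, sum_comm]
    refine sum_congr rfl fun j _ => ?_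
    rw [← mul_sum, sum_add_distrib]
  rw [h1]
  have h4 : ∀ j : ℕ, ∑ k ∈ range n, (if j ≤ k then c k * e (k - j) else 0) ≤ (1 + j) * E := by
    intro j
    refine (shift_sum_le hc he).trans ?_
    rw [hE, mul_sum]
    refine sum_le_sum fun m _ => ?_
    rw [← mul_assoc]
    exact mul_le_mul_of_nonneg_right (hcm m j) (he m)
  have h5 : ∀ j ∈ Icc 1 n, v j * ((∑ k ∈ range n, if j ≤ k then c k * e (k - j) else 0) +
        ∑ k ∈ range n, if j + 1 ≤ k then c k * e (k - (j + 1)) else 0) ≤ (5 * (j * v j)) * E := by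
    intro j hj
    have hj1 : (1 : ℝ) ≤ j := by exact_mod_cast (mem_Icc.1 hj).1
    have h6 := h4 j
    have h7 := h4 (j + 1)
    push_cast at h7
    have h8 : (∑ k ∈ range n, if j ≤ k then c k * e (k - j) else 0) +
        (∑ k ∈ range n, if j + 1 ≤ k then c k * e (k - (j + 1)) else 0) ≤ 5 * j * E := by
      nlinarith
    calc _ ≤ v j * (5 * j * E) := mul_le_mul_of_nonneg_left h8 (hv j)
      _ = _ := by ring
  refine (sum_le_sum h5).trans ?_
  rw [← sum_mul, ← mul_sum]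
  exact mul_le_of_le_one_left hE0 hV

/-- The normalised chain: sums of the increments. -/
theorem chain_sum {n : ℕ} {κ' : ℝ} {r e d g v c : ℕ → ℝ} (hc : ∀ k, 0 ≤ c k)
    (he : ∀ k, 0 ≤ e k) (hv : ∀ k, 0 ≤ v k) (hcm : ∀ m j, c (m + j) ≤ (1 + j) * c m)
    (hV : 5 * ∑ j ∈ Icc 1 n, j * v j ≤ 1)
    (h1 : ∀ k < n, r k + κ' * r k ^ 2 + e k ≤ r (k + 1) + d k)
    (h2 : ∀ k < n, d k ≤ g k +
      ∑ j ∈ Icc 1 k, v j * (e (k - j) + if j + 1 ≤ k then e (k - (j + 1)) else 0)) :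
    ∑ k ∈ range n, c k * (r k - r (k + 1) + κ' * r k ^ 2) ≤ ∑ k ∈ range n, c k * g k := by
  have h3 : ∀ k ∈ range n, c k * (r k - r (k + 1) + κ' * r k ^ 2) ≤
      c k * g k + c k * (∑ j ∈ Icc 1 k, v j * (e (k - j) + if j + 1 ≤ k then e (k - (j + 1)) else 0))
        - c k * e k := by
    intro k hk
    have hk := mem_range.1 hk
    have h4 := h1 k hk
    have h5 := h2 k hk
    have h6 := hc k
    nlinarith
  refine (sum_le_sum h3).trans ?_
  rw [sum_sub_distrib, sum_add_distrib]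
  have h7 := window_sum_le (n := n) hc he hv hcm hV
  linarith

/-- `∑_{k<n} (k+1)(r_k - r_{k+1}) = ∑_{k<n} (r_k - r_n)`. -/
theorem abel_sum (n : ℕ) (r : ℕ → ℝ) :
    ∑ k ∈ range n, ((k : ℝ) + 1) * (r k - r (k + 1)) = ∑ k ∈ range n, (r k - r n) := by
  induction n with
  | zero => simp
  | succ n ih =>
    rw [sum_range_succ, ih, sum_range_succ, ← sub_eq_zero]
    simp only [sum_sub_distrib, sum_const, card_range, nsmul_eq_mul]
    ring

/-- `x ≤ exp (x - 1)`-product bound. -/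
theorem prod_le_exp {n : ℕ} {r : ℕ → ℝ} {ζ : ℝ} (hζ : 0 < ζ) (hr : ∀ k < n, 0 ≤ r k) :
    ∏ k ∈ range n, r k / ζ ≤ Real.exp (∑ k ∈ range n, (r k - ζ) / ζ) := by
  rw [Real.exp_sum]
  refine prod_le_prod (fun k hk => div_nonneg (hr k (mem_range.1 hk)) hζ.le) fun k _ => ?_
  have h1 := Real.add_one_le_exp ((r k - ζ) / ζ)
  have h2 : (r k - ζ) / ζ + 1 = r k / ζ := by
    field_simp
    ring
  rwa [h2] at h1

/-- `n (∏ x_k)^{2/n} ≤ ∑ x_k²` in the form needed: if `∏_{k<n} r_k/ζ ≥ 1` then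
`n ζ² ≤ ∑ r_k²`. -/
theorem sum_sq_ge {n : ℕ} {r : ℕ → ℝ} {ζ : ℝ} (hζ : 0 < ζ) (hr : ∀ k < n, 0 ≤ r k)
    (hp : 1 ≤ ∏ k ∈ range n, r k / ζ) : n * ζ ^ 2 ≤ ∑ k ∈ range n, r k ^ 2 := by
  have h1 : 0 ≤ ∑ k ∈ range n, (r k - ζ) / ζ := by
    have h2 := hp.trans (prod_le_exp hζ hr)
    by_contra h3
    have h4 := Real.exp_lt_exp.2 (not_le.1 h3)
    rw [Real.exp_zero] at h4
    linarith
  have h3 : 0 ≤ ∑ k ∈ range n, (r k - ζ) := by
    rw [← sum_div] at h1
    exact (div_nonneg_iff.1 h1).elim (fun h => h.1) fun h => absurd h.2 (by linarith)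
  have h4 : ∀ k ∈ range n, ζ ^ 2 + 2 * ζ * (r k - ζ) ≤ r k ^ 2 := fun k _ => by
    nlinarith [sq_nonneg (r k - ζ)]
  have h5 := sum_le_sum h4
  rw [sum_add_distrib, ← mul_sum, sum_const, card_range, nsmul_eq_mul] at h5
  have h6 : 0 ≤ 2 * ζ * ∑ k ∈ range n, (r k - ζ) := mul_nonneg (by linarith) h3
  linarith

/-- Telescoping product. -/
theorem prod_ratio {n : ℕ} {a : ℕ → ℝ} {ζ : ℝ} (hζ : 0 < ζ) (ha : ∀ k ≤ n, 0 < a k) :
    ∏ k ∈ range n, (a (k + 1) / a k) / ζ = a n / a 0 / ζ ^ n := by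
  induction n with
  | zero => simp [(ha 0 le_rfl).ne']
  | succ n ih =>
    rw [prod_range_succ, ih fun k hk => ha k (hk.trans n.le_succ)]
    have h1 := (ha n n.le_succ).ne'
    have h2 := (ha 0 (Nat.zero_le _)).ne'
    field_simp
    ring

/-- One step of the chain in the normalised form. -/
theorem chain_step {κ a0 a1 a2 α z : ℝ} (h0 : 0 < a0) (h1 : 0 < a1)
    (h : a1 ^ 2 ≤ (a0 - κ * a1) * (a2 - α + z)) (h3 : 0 ≤ a0 - κ * a1) :
    a1 / a0 + κ * (a1 / a0) ^ 2 + α / a1 ≤ a2 / a1 + z / a1 := by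
  have h4 : 0 < a0 - κ * a1 := by
    rcases h3.lt_or_eq with h5 | h5
    · exact h5
    · rw [← h5, zero_mul] at h
      nlinarith
  -- `a2 - α + z ≥ a1² / (a0 - κ a1) ≥ a1 (r + κ r²)`
  have h5 : a1 * (a1 / a0 + κ * (a1 / a0) ^ 2) ≤ a2 - α + z := by
    have h6 : (a0 - κ * a1) * (a1 * (a1 / a0 + κ * (a1 / a0) ^ 2)) ≤ a1 ^ 2 := by
      have h7 : (a0 - κ * a1) * (a1 * (a1 / a0 + κ * (a1 / a0) ^ 2)) =
          a1 ^ 2 - a1 ^ 2 * (κ * a1 / a0) ^ 2 := by
        field_simp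
        ring
      rw [h7]
      nlinarith [mul_nonneg (sq_nonneg a1) (sq_nonneg (κ * a1 / a0))]
    have h8 := h6.trans h
    exact le_of_mul_le_mul_left h8 h4
  have h6 : a1 / a0 + κ * (a1 / a0) ^ 2 ≤ (a2 - α + z) / a1 := by
    rw [le_div_iff₀ h1]
    linarith
  have h7 : (a2 - α + z) / a1 = a2 / a1 - α / a1 + z / a1 := by ring
  rw [h7] at h6
  linarith

/-- The weight of the window terms. -/
noncomputable def wv (m : ℕ → ℝ) (ζ : ℝ) (w j : ℕ) : ℝ :=
  if j < w then 5600 / 9 * (j ^ 4 * (j + 1) ^ 2 * m j) / ζ ^ j else 0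

/-- The early terms. -/
noncomputable def ge (m : ℕ → ℝ) (ζ : ℝ) (w k : ℕ) : ℝ :=
  if k + 1 < w then 40 / 9 * ((k + 1) ^ 2 * m (k + 1)) / ζ ^ k else 0

theorem wv_nonneg {m : ℕ → ℝ} (hm : ∀ k, 0 ≤ m k) {ζ : ℝ} (hζ : 0 < ζ) (w j : ℕ) :
    0 ≤ wv m ζ w j := by
  unfold wv
  split_ifs
  · have := hm j
    positivity
  · exact le_rfl

theorem ge_nonneg {m : ℕ → ℝ} (hm : ∀ k, 0 ≤ m k) {ζ : ℝ} (hζ : 0 < ζ) (w k : ℕ) :
    0 ≤ ge m ζ w k := by
  unfold ge
  split_ifs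
  · have := hm (k + 1)
    positivity
  · exact le_rfl

/-- The bound of `z k / a (k+1)`. -/
theorem zbound {a α m : ℕ → ℝ} {κ ζ t1 z : ℝ} {w k : ℕ} (hκ : 0 < κ) (hζ : 0 < ζ) (hw : 2 ≤ w)
    (hα : ∀ k, 0 ≤ α k) (hm : ∀ k, 0 ≤ m k) (ht1 : t1 ≤ 2 * ζ)
    (hlo : ∀ i ≤ k + 1, 9 / 10 * ζ ^ i ≤ a i) (hup : ∀ i ≤ k + 1, a i ≤ 2 * ζ ^ i)
    (hz : z ≤ 2 * (min w (k + 1) : ℕ) ^ 2 * m (min w (k + 1)) * a (k + 2 - min w (k + 1)) +
      140 * ∑ j ∈ Icc 1 (min w (k + 1) - 1), (j : ℝ) ^ 4 * (j + 1) ^ 2 * m j *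
        (α (k - j) + if j + 1 ≤ k then t1 * α (k - (j + 1)) else 0))
    (hC2 : 45 * (w : ℝ) ^ 2 * m w / ζ ^ w ≤ κ * ζ) :
    z / a (k + 1) ≤ κ / 2 * (a (k + 1) / a k) ^ 2 + (ge m ζ w k + ∑ j ∈ Icc 1 k, wv m ζ w j *
      (α (k - j) / a (k - j + 1) +
        if j + 1 ≤ k then α (k - (j + 1)) / a (k - (j + 1) + 1) else 0)) := by
  have hap : ∀ i ≤ k + 1, 0 < a i := fun i hi => by
    have := hlo i hi
    have : 0 < ζ ^ i := pow_pos hζ i
    linarith
  have ha1 := hap (k + 1) le_rfl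
  have ha0 := hap k (by omega)
  -- first term
  have hT1 : 2 * (min w (k + 1) : ℕ) ^ 2 * m (min w (k + 1)) * a (k + 2 - min w (k + 1)) / a (k + 1) ≤
      κ / 2 * (a (k + 1) / a k) ^ 2 + ge m ζ w k := by
    rcases lt_or_ge (k + 1) w with h | h
    · have e1 : min w (k + 1) = k + 1 := by omega
      have e2 : k + 2 - (k + 1) = 1 := by omega
      rw [e1, e2]
      have h1 := hup 1 (by omega)
      have h2 := hlo (k + 1) le_rfl
      have h3 : a 1 / a (k + 1) ≤ 20 / 9 / ζ ^ k := by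
        rw [div_le_div_iff₀ ha1 (pow_pos hζ k)]
        have h4 : a 1 * ζ ^ k ≤ 2 * ζ ^ 1 * ζ ^ k :=
          mul_le_mul_of_nonneg_right h1 (pow_pos hζ k).le
        rw [pow_succ] at h2
        nlinarith
      have h5 : ge m ζ w k = 2 * ((k : ℝ) + 1) ^ 2 * m (k + 1) * (20 / 9 / ζ ^ k) := by
        unfold ge
        rw [if_pos h]
        ring
      rw [h5]
      have h6 : 2 * ((k + 1 : ℕ) : ℝ) ^ 2 * m (k + 1) * a 1 / a (k + 1) =
          2 * ((k : ℝ) + 1) ^ 2 * m (k + 1) * (a 1 / a (k + 1)) := by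
        push_cast
        ring
      rw [h6]
      have h7 : 2 * ((k : ℝ) + 1) ^ 2 * m (k + 1) * (a 1 / a (k + 1)) ≤
          2 * ((k : ℝ) + 1) ^ 2 * m (k + 1) * (20 / 9 / ζ ^ k) :=
        mul_le_mul_of_nonneg_left h3 (mul_nonneg (by positivity) (hm _))
      have h8 : 0 ≤ κ / 2 * (a (k + 1) / a k) ^ 2 := by positivity
      linarith
    · have e1 : min w (k + 1) = w := by omega
      rw [e1]
      have h1 := hup (k + 2 - w) (by omega)
      have h2 := hlo (k + 1) le_rfl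
      have h3 : a (k + 2 - w) / a (k + 1) ≤ 20 / 9 * ζ / ζ ^ w := by
        rw [div_le_div_iff₀ ha1 (pow_pos hζ w)]
        have h4 : a (k + 2 - w) * ζ ^ w ≤ 2 * ζ ^ (k + 2 - w) * ζ ^ w :=
          mul_le_mul_of_nonneg_right h1 (pow_pos hζ w).le
        have h5 : 2 * ζ ^ (k + 2 - w) * ζ ^ w = 2 * ζ ^ (k + 1) * ζ := by
          rw [mul_assoc, ← pow_add, mul_assoc, ← pow_succ]
          congr 2
          omega
        rw [h5] at h4
        have h6 : 20 / 9 * ζ * (9 / 10 * ζ ^ (k + 1)) ≤ 20 / 9 * ζ * a (k + 1) :=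
          mul_le_mul_of_nonneg_left h2 (by positivity)
        linarith
      have h4 : 2 * (w : ℝ) ^ 2 * m w * a (k + 2 - w) / a (k + 1) ≤
          2 * (w : ℝ) ^ 2 * m w * (20 / 9 * ζ / ζ ^ w) := by
        rw [mul_div_assoc]
        exact mul_le_mul_of_nonneg_left h3 (mul_nonneg (by positivity) (hm _))
      have h5 : 2 * (w : ℝ) ^ 2 * m w * (20 / 9 * ζ / ζ ^ w) ≤ 8 / 81 * κ * ζ ^ 2 := by
        have h6 := mul_le_mul_of_nonneg_right hC2 (show (0 : ℝ) ≤ 8 / 81 * ζ by positivity)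
        have h7 : 45 * (w : ℝ) ^ 2 * m w / ζ ^ w * (8 / 81 * ζ) =
            2 * (w : ℝ) ^ 2 * m w * (20 / 9 * ζ / ζ ^ w) := by ring
        rw [h7] at h6
        linarith
      have h6 : 9 / 20 * ζ ≤ a (k + 1) / a k := by
        rw [le_div_iff₀ ha0]
        have h7 := hup k (by omega)
        have h8 : 9 / 20 * ζ * a k ≤ 9 / 20 * ζ * (2 * ζ ^ k) :=
          mul_le_mul_of_nonneg_left h7 (by positivity)
        rw [pow_succ] at h2
        linarith
      have h7 : (9 / 20 * ζ) ^ 2 ≤ (a (k + 1) / a k) ^ 2 :=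
        pow_le_pow_left₀ (by positivity) h6 2
      have h8 : κ / 2 * (9 / 20 * ζ) ^ 2 ≤ κ / 2 * (a (k + 1) / a k) ^ 2 :=
        mul_le_mul_of_nonneg_left h7 (by positivity)
      have h9 := ge_nonneg hm hζ w k
      have h10 : 0 ≤ κ * ζ ^ 2 := by positivity
      nlinarith
  -- second term
  have hT2 : (140 * ∑ j ∈ Icc 1 (min w (k + 1) - 1), (j : ℝ) ^ 4 * (j + 1) ^ 2 * m j *
        (α (k - j) + if j + 1 ≤ k then t1 * α (k - (j + 1)) else 0)) / a (k + 1) ≤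
      ∑ j ∈ Icc 1 k, wv m ζ w j * (α (k - j) / a (k - j + 1) +
        if j + 1 ≤ k then α (k - (j + 1)) / a (k - (j + 1) + 1) else 0) := by
    rw [mul_div_assoc, sum_div, mul_sum]
    have hsub : Icc 1 (min w (k + 1) - 1) ⊆ Icc 1 k := by
      intro j hj
      rw [mem_Icc] at hj ⊢
      omega
    refine (sum_le_sum fun j hj => ?_).trans (sum_le_sum_of_subset_of_nonneg hsub fun j hj _ => ?_)
    · rw [mem_Icc] at hj
      have hjw : j < w := by omega
      have hjk : j ≤ k := by omega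
      have hv : wv m ζ w j = 140 * ((j : ℝ) ^ 4 * (j + 1) ^ 2 * m j) * (40 / 9 / ζ ^ j) := by
        unfold wv
        rw [if_pos hjw]
        ring
      have hq : 0 ≤ 140 * ((j : ℝ) ^ 4 * (j + 1) ^ 2 * m j) := mul_nonneg (by norm_num)
        (mul_nonneg (by positivity) (hm j))
      have key : ∀ i p : ℕ, i ≤ k → p ≤ k - i → 0 ≤ 20 / 9 / ζ ^ i →
          α (k - i) / a (k + 1) ≤ 20 / 9 / ζ ^ i * (α (k - i) / a (k - i + 1)) := by
        intro i _ hi _ _
        have hi1 := hap (k - i + 1) (by omega)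
        have h1 : a (k - i + 1) / a (k + 1) ≤ 20 / 9 / ζ ^ i := by
          rw [div_le_div_iff₀ ha1 (pow_pos hζ i)]
          have h2 := hup (k - i + 1) (by omega)
          have h3 := hlo (k + 1) le_rfl
          have h4 : a (k - i + 1) * ζ ^ i ≤ 2 * ζ ^ (k - i + 1) * ζ ^ i :=
            mul_le_mul_of_nonneg_right h2 (pow_pos hζ i).le
          have h5 : 2 * ζ ^ (k - i + 1) * ζ ^ i = 2 * ζ ^ (k + 1) := by
            rw [mul_assoc, ← pow_add]
            congr 2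
            omega
          rw [h5] at h4
          linarith
        have h6 : α (k - i) / a (k + 1) =
            a (k - i + 1) / a (k + 1) * (α (k - i) / a (k - i + 1)) := by
          field_simp
        rw [h6]
        exact mul_le_mul_of_nonneg_right h1 (div_nonneg (hα _) hi1.le)
      have h1 := key j 0 hjk (by omega) (by positivity)
      have h2 : (if j + 1 ≤ k then t1 * α (k - (j + 1)) else 0) / a (k + 1) ≤
          40 / 9 / ζ ^ j * (if j + 1 ≤ k then α (k - (j + 1)) / a (k - (j + 1) + 1) else 0) := by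
        by_cases hj1 : j + 1 ≤ k
        · rw [if_pos hj1, if_pos hj1, mul_div_assoc]
          have h3 := key (j + 1) 0 hj1 (by omega) (by positivity)
          have h4 : 0 ≤ α (k - (j + 1)) / a (k + 1) := div_nonneg (hα _) ha1.le
          have h5 : t1 * (α (k - (j + 1)) / a (k + 1)) ≤
              2 * ζ * (20 / 9 / ζ ^ (j + 1) * (α (k - (j + 1)) / a (k - (j + 1) + 1))) :=
            mul_le_mul ht1 h3 h4 (by positivity)
          refine h5.trans (le_of_eq ?_)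
          rw [pow_succ]
          field_simp
          ring
        · rw [if_neg hj1, if_neg hj1]
          simp
      have h3 : (α (k - j) + if j + 1 ≤ k then t1 * α (k - (j + 1)) else 0) / a (k + 1) ≤
          40 / 9 / ζ ^ j * (α (k - j) / a (k - j + 1) +
            if j + 1 ≤ k then α (k - (j + 1)) / a (k - (j + 1) + 1) else 0) := by
        rw [add_div, mul_add]
        refine add_le_add (h1.trans ?_) h2
        have h4 : 0 ≤ α (k - j) / a (k - j + 1) := div_nonneg (hα _) (hap _ (by omega)).le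
        refine mul_le_mul_of_nonneg_right ?_ h4
        exact div_le_div_of_nonneg_right (by norm_num) (pow_pos hζ j).le
      rw [hv]
      have h4 := mul_le_mul_of_nonneg_left h3 hq
      calc _ = 140 * ((j : ℝ) ^ 4 * (j + 1) ^ 2 * m j) *
            ((α (k - j) + if j + 1 ≤ k then t1 * α (k - (j + 1)) else 0) / a (k + 1)) := by ring
        _ ≤ _ := h4
        _ = _ := by ring
    · rw [mem_Icc] at hj
      refine mul_nonneg (wv_nonneg hm hζ w j) (add_nonneg (div_nonneg (hα _) (hap _ (by omega)).le) ?_)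
      split_ifs
      · exact div_nonneg (hα _) (hap _ (by omega)).le
      · exact le_rfl
  have h1 := div_le_div_of_nonneg_right hz ha1.le
  rw [add_div] at h1
  linarith

/-- The sum of the weights. -/
theorem sum_wv {m : ℕ → ℝ} (hm : ∀ k, 0 ≤ m k) {s ζ : ℝ} (hs : 0 < s) (hsζ : s ≤ ζ) {w : ℕ}
    (h : 12500 * ∑ j ∈ Icc 1 (w - 1), (j : ℝ) ^ 7 * m j / s ^ j ≤ 1) (n : ℕ) :
    5 * ∑ j ∈ Icc 1 n, (j : ℝ) * wv m ζ w j ≤ 1 := by
  have hζ : 0 < ζ := hs.trans_le hsζ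
  have h1 : ∑ j ∈ Icc 1 n, (j : ℝ) * wv m ζ w j ≤ ∑ j ∈ Icc 1 (w - 1), (j : ℝ) * wv m ζ w j := by
    have h2 : ∑ j ∈ Icc 1 n, (j : ℝ) * wv m ζ w j =
        ∑ j ∈ (Icc 1 n).filter (fun j => j < w), (j : ℝ) * wv m ζ w j := by
      rw [sum_filter]
      refine sum_congr rfl fun j _ => ?_
      by_cases hj : j < w
      · rw [if_pos hj]
      · rw [if_neg hj, wv, if_neg hj, mul_zero]
    rw [h2]
    refine sum_le_sum_of_subset_of_nonneg ?_ fun j _ _ =>
      mul_nonneg (Nat.cast_nonneg j) (wv_nonneg hm hζ w j)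
    intro j hj
    simp only [mem_filter, mem_Icc] at hj ⊢
    omega
  have h3 : ∀ j ∈ Icc 1 (w - 1), (j : ℝ) * wv m ζ w j ≤ 2500 * ((j : ℝ) ^ 7 * m j / s ^ j) := by
    intro j hj
    rw [mem_Icc] at hj
    have hjw : j < w := by omega
    have hj1 : (1 : ℝ) ≤ j := by exact_mod_cast hj.1
    unfold wv
    rw [if_pos hjw]
    have h4 : ((j : ℝ) + 1) ^ 2 ≤ 4 * (j : ℝ) ^ 2 := by nlinarith
    have h5 : (j : ℝ) * (5600 / 9 * ((j : ℝ) ^ 4 * (j + 1) ^ 2 * m j)) ≤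
        2500 * ((j : ℝ) ^ 7 * m j) := by
      have h6 : 0 ≤ (j : ℝ) ^ 5 * m j := mul_nonneg (by positivity) (hm j)
      have h7 := mul_le_mul_of_nonneg_left h4 h6
      have h8 : 0 ≤ (j : ℝ) ^ 7 * m j := mul_nonneg (by positivity) (hm j)
      nlinarith
    have h9 : (j : ℝ) * (5600 / 9 * ((j : ℝ) ^ 4 * (j + 1) ^ 2 * m j) / ζ ^ j) =
        (j : ℝ) * (5600 / 9 * ((j : ℝ) ^ 4 * (j + 1) ^ 2 * m j)) / ζ ^ j := by ring
    rw [h9]
    have h10 : 0 ≤ 2500 * ((j : ℝ) ^ 7 * m j) :=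
      mul_nonneg (by norm_num) (mul_nonneg (by positivity) (hm j))
    calc _ ≤ 2500 * ((j : ℝ) ^ 7 * m j) / ζ ^ j := div_le_div_of_nonneg_right h5 (by positivity)
      _ ≤ 2500 * ((j : ℝ) ^ 7 * m j) / s ^ j :=
        div_le_div_of_nonneg_left h10 (pow_pos hs j) (pow_le_pow_left₀ hs.le hsζ j)
      _ = _ := by ring
  have h4 := sum_le_sum h3
  rw [← mul_sum] at h4
  linarith

/-- The sum of the early terms. -/
theorem sum_ge {m : ℕ → ℝ} (hm : ∀ k, 0 ≤ m k) {s ζ : ℝ} (hs : 0 < s) (hsζ : s ≤ ζ) {w : ℕ}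
    (h : 12500 * ∑ j ∈ Icc 1 (w - 1), (j : ℝ) ^ 7 * m j / s ^ j ≤ 1) (n : ℕ) :
    ∑ k ∈ range n, ((k : ℝ) + 1) * ge m ζ w k ≤ ζ / 1000 := by
  have hζ : 0 < ζ := hs.trans_le hsζ
  have h1 : ∑ k ∈ range n, ((k : ℝ) + 1) * ge m ζ w k ≤
      ∑ k ∈ range (w - 1), ((k : ℝ) + 1) * ge m ζ w k := by
    have h2 : ∑ k ∈ range n, ((k : ℝ) + 1) * ge m ζ w k =
        ∑ k ∈ (range n).filter (fun k => k + 1 < w), ((k : ℝ) + 1) * ge m ζ w k := by
      rw [sum_filter]
      refine sum_congr rfl fun j _ => ?_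
      by_cases hj : j + 1 < w
      · rw [if_pos hj]
      · rw [if_neg hj, ge, if_neg hj, mul_zero]
    rw [h2]
    refine sum_le_sum_of_subset_of_nonneg ?_ fun j _ _ =>
      mul_nonneg (by positivity) (ge_nonneg hm hζ w j)
    intro j hj
    simp only [mem_filter, mem_range] at hj ⊢
    omega
  have h2 : ∑ k ∈ range (w - 1), ((k : ℝ) + 1) * ge m ζ w k ≤
      ∑ k ∈ range (w - 1), 5 * ζ * (((k + 1 : ℕ) : ℝ) ^ 7 * m (k + 1) / s ^ (k + 1)) := by
    refine sum_le_sum fun k hk => ?_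
    have hk := mem_range.1 hk
    unfold ge
    rw [if_pos (by omega)]
    have h3 : 0 ≤ ((k + 1 : ℕ) : ℝ) ^ 7 * m (k + 1) := mul_nonneg (by positivity) (hm _)
    have h4 : ((k : ℝ) + 1) * (40 / 9 * (((k : ℝ) + 1) ^ 2 * m (k + 1))) ≤
        5 * (((k + 1 : ℕ) : ℝ) ^ 7 * m (k + 1)) := by
      push_cast
      have h5 : ((k : ℝ) + 1) ^ 3 ≤ ((k : ℝ) + 1) ^ 7 :=
        pow_le_pow_right₀ (by linarith [Nat.cast_nonneg (α := ℝ) k]) (by norm_num)
      have h6 := mul_le_mul_of_nonneg_right h5 (hm (k + 1))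
      have h7 : 0 ≤ ((k : ℝ) + 1) ^ 7 * m (k + 1) := mul_nonneg (by positivity) (hm _)
      nlinarith
    calc ((k : ℝ) + 1) * (40 / 9 * (((k : ℝ) + 1) ^ 2 * m (k + 1)) / ζ ^ k)
        = ((k : ℝ) + 1) * (40 / 9 * (((k : ℝ) + 1) ^ 2 * m (k + 1))) / ζ ^ k := by ring
      _ ≤ 5 * (((k + 1 : ℕ) : ℝ) ^ 7 * m (k + 1)) / ζ ^ k :=
        div_le_div_of_nonneg_right h4 (by positivity)
      _ = 5 * ζ * (((k + 1 : ℕ) : ℝ) ^ 7 * m (k + 1) / ζ ^ (k + 1)) := by
        rw [pow_succ ζ k]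
        field_simp
      _ ≤ _ := by
        refine mul_le_mul_of_nonneg_left ?_ (by positivity)
        exact div_le_div_of_nonneg_left h3 (pow_pos hs _) (pow_le_pow_left₀ hs.le hsζ _)
  have h3 : ∑ k ∈ range (w - 1), (((k + 1 : ℕ) : ℝ) ^ 7 * m (k + 1) / s ^ (k + 1)) =
      ∑ j ∈ Icc 1 (w - 1), (j : ℝ) ^ 7 * m j / s ^ j := by
    rw [range_eq_Ico, sum_Ico_add' (fun j : ℕ => (j : ℝ) ^ 7 * m j / s ^ j) 0 (w - 1) 1]
    congr 1
  rw [← mul_sum, h3] at h2
  nlinarith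

/-- The excursion lemma. -/
theorem excursion {X : Type*} {a α z : X → ℕ → ℝ} {t m : ℕ → ℝ} {κ s : ℝ} {w : ℕ}
    (hκ : 0 < κ) (hs : 0 < s) (hw : 2 ≤ w)
    (hα : ∀ x k, 0 ≤ α x k) (hm : ∀ k, 0 ≤ m k)
    (ha : ∀ x k, 0 ≤ a x k) (ha0 : ∀ x, a x 0 = 1)
    (hsub : ∀ x k l, a x (k + l) ≤ t l * a x k)
    (hnear : ∀ l, ∀ δ > 0, ∃ x, t l - δ < a x l)
    (hmono : ∀ x k, 0 ≤ a x k - κ * a x (k + 1))
    (hchain : ∀ x k, a x (k + 1) ^ 2 ≤
      (a x k - κ * a x (k + 1)) * (a x (k + 2) - α x k + z x k))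
    (hz : ∀ x k, z x k ≤
      2 * (min w (k + 1) : ℕ) ^ 2 * m (min w (k + 1)) * a x (k + 2 - min w (k + 1)) +
      140 * ∑ j ∈ Icc 1 (min w (k + 1) - 1), (j : ℝ) ^ 4 * (j + 1) ^ 2 * m j *
        (α x (k - j) + if j + 1 ≤ k then t 1 * α x (k - (j + 1)) else 0))
    (hC1 : 12500 * ∑ j ∈ Icc 1 (w - 1), (j : ℝ) ^ 7 * m j / s ^ j ≤ 1)
    (hC2 : 45 * (w : ℝ) ^ 2 * m w / s ^ w ≤ κ * s) (k : ℕ) : t k ≤ 2 * s ^ k := by
  classical
  by_contra hcon
  have hcon := not_le.1 hcon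
  obtain ⟨x0, -⟩ := hnear 0 1 one_pos
  have hat : ∀ x l, a x l ≤ t l := by
    intro x l
    have h1 := hsub x 0 l
    rwa [zero_add, ha0, mul_one] at h1
  have ht0 : ∀ l, 0 ≤ t l := fun l => (ha x0 l).trans (hat x0 l)
  have ht01 : t 0 ≤ 1 := by
    refine le_of_forall_pos_le_add fun δ hδ => ?_
    obtain ⟨x, hx⟩ := hnear 0 δ hδ
    rw [ha0] at hx
    linarith
  have hk1 : 1 ≤ k := by
    rcases Nat.eq_zero_or_pos k with h | h
    · rw [h, pow_zero] at hcon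
      linarith
    · exact h
  obtain ⟨N0, hN0⟩ := exists_nat_gt (8 / (κ * s))
  set N : ℕ := max k N0 with hN
  have hkN : k ≤ N := le_max_left _ _
  have hN8 : 8 < κ * s * N := by
    have h1 : (N0 : ℝ) ≤ N := by exact_mod_cast le_max_right k N0
    have h2 := hN0.trans_le h1
    rw [div_lt_iff₀ (mul_pos hκ hs)] at h2
    linarith
  -- the maximiser
  obtain ⟨n, hn, hmax⟩ := exists_max_image (Icc 1 N) (fun l : ℕ => (t l / 2) ^ ((l : ℝ)⁻¹))
    ⟨k, mem_Icc.2 ⟨hk1, hkN⟩⟩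
  have hn1 : 1 ≤ n := (mem_Icc.1 hn).1
  have hnN : n ≤ N := (mem_Icc.1 hn).2
  set ζ : ℝ := (t n / 2) ^ ((n : ℝ)⁻¹) with hζd
  have hζ0 : 0 ≤ ζ := Real.rpow_nonneg (by linarith [ht0 n]) _
  have htle : ∀ l, 1 ≤ l → l ≤ N → t l ≤ 2 * ζ ^ l := by
    intro l hl1 hlN
    have h1 : (t l / 2) ^ ((l : ℝ)⁻¹) ≤ ζ := hmax l (mem_Icc.2 ⟨hl1, hlN⟩)
    have h2 : 0 ≤ t l / 2 := by linarith [ht0 l]
    have h3 := pow_le_pow_left₀ (Real.rpow_nonneg h2 _) h1 l
    rw [Real.rpow_inv_natCast_pow h2 (by omega)] at h3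
    linarith
  have htn : t n = 2 * ζ ^ n := by
    have h2 : 0 ≤ t n / 2 := by linarith [ht0 n]
    rw [hζd, Real.rpow_inv_natCast_pow h2 (by omega)]
    ring
  have hsζ' : s < ζ := by
    have h1 := htle k hk1 hkN
    exact lt_of_pow_lt_pow_left₀ k hζ0 (by linarith)
  have hsζ : s ≤ ζ := hsζ'.le
  have hζ : 0 < ζ := hs.trans hsζ'
  -- the nearly extremal sequence
  set ε : ℝ := 1 / (20 * (n + 1)) with hε
  have hn0 : (0 : ℝ) ≤ n := Nat.cast_nonneg n
  have hε0 : 0 < ε := by rw [hε]; positivity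
  have hεn : n * ε ≤ 1 / 20 := by
    rw [hε, mul_one_div, div_le_div_iff₀ (by positivity) (by norm_num)]
    linarith
  have hε1 : ε ≤ 1 / 20 := by
    rw [hε, div_le_div_iff₀ (by positivity) (by norm_num)]
    linarith
  obtain ⟨x, hx⟩ := hnear n (ε * ζ ^ n) (mul_pos hε0 (pow_pos hζ n))
  have han : (2 - ε) * ζ ^ n ≤ a x n := by
    rw [htn] at hx
    linarith
  have hlo1 : ∀ i ≤ n, (1 - ε / 2) * ζ ^ i ≤ a x i := by
    intro i hi
    rcases hi.lt_or_eq with h | h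
    · have h1 := hsub x i (n - i)
      rw [Nat.add_sub_cancel' hi] at h1
      have h2 := htle (n - i) (by omega) (by omega)
      have h3 : t (n - i) * a x i ≤ 2 * ζ ^ (n - i) * a x i :=
        mul_le_mul_of_nonneg_right h2 (ha x i)
      have h4 : ζ ^ n = ζ ^ (n - i) * ζ ^ i := by
        rw [← pow_add]
        congr 1
        omega
      have h5 : ζ ^ (n - i) * ((2 - ε) * ζ ^ i) ≤ ζ ^ (n - i) * (2 * a x i) := by
        rw [h4] at han
        linarith
      have h6 := le_of_mul_le_mul_left h5 (pow_pos hζ _)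
      linarith
    · rw [h]
      have h1 : 0 < ζ ^ n := pow_pos hζ n
      nlinarith
  have hlo : ∀ i ≤ n, 9 / 10 * ζ ^ i ≤ a x i := fun i hi => by
    have h1 := hlo1 i hi
    have h2 : 0 < ζ ^ i := pow_pos hζ i
    nlinarith
  have hup : ∀ i ≤ N, a x i ≤ 2 * ζ ^ i := by
    intro i hi
    rcases Nat.eq_zero_or_pos i with h | h
    · rw [h, pow_zero, ha0]
      norm_num
    · exact (hat x i).trans (htle i h hi)
  have hpos : ∀ i ≤ n, 0 < a x i := fun i hi => by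
    have h1 := hlo i hi
    have h2 : 0 < ζ ^ i := pow_pos hζ i
    linarith
  have hC2' : 45 * (w : ℝ) ^ 2 * m w / ζ ^ w ≤ κ * ζ := by
    have h1 : 45 * (w : ℝ) ^ 2 * m w / ζ ^ w ≤ 45 * (w : ℝ) ^ 2 * m w / s ^ w :=
      div_le_div_of_nonneg_left (mul_nonneg (by positivity) (hm w)) (pow_pos hs w)
        (pow_le_pow_left₀ hs.le hsζ w)
    have h2 : κ * s ≤ κ * ζ := mul_le_mul_of_nonneg_left hsζ hκ.le
    linarith
  have hV := sum_wv hm hs hsζ hC1 n
  -- the normalised chain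
  have h1 : ∀ k < n, a x (k + 1) / a x k + κ / 2 * (a x (k + 1) / a x k) ^ 2 + α x k / a x (k + 1) ≤
      a x (k + 1 + 1) / a x (k + 1) +
        (z x k / a x (k + 1) - κ / 2 * (a x (k + 1) / a x k) ^ 2) := by
    intro k hk
    have h2 := chain_step (hpos k hk.le) (hpos (k + 1) hk) (hchain x k) (hmono x k)
    have h3 : κ * (a x (k + 1) / a x k) ^ 2 = κ / 2 * (a x (k + 1) / a x k) ^ 2 +
      κ / 2 * (a x (k + 1) / a x k) ^ 2 := by ring
    rw [h3] at h2
    linarith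
  have h2 : ∀ k < n, z x k / a x (k + 1) - κ / 2 * (a x (k + 1) / a x k) ^ 2 ≤ ge m ζ w k +
      ∑ j ∈ Icc 1 k, wv m ζ w j * (α x (k - j) / a x (k - j + 1) +
        if j + 1 ≤ k then α x (k - (j + 1)) / a x (k - (j + 1) + 1) else 0) := by
    intro k hk
    have h3 := zbound (a := a x) (α := α x) (t1 := t 1) (z := z x k) (w := w) (k := k) hκ hζ hw
      (hα x) hm (by simpa using htle 1 le_rfl (hn1.trans hnN)) (fun i hi => hlo i (by omega))
      (fun i hi => hup i (by omega)) (hz x k) hC2'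
    linarith
  have he : ∀ k, 0 ≤ α x k / a x (k + 1) := fun k => div_nonneg (hα x k) (ha x _)
  have hr : ∀ k < n, 0 ≤ a x (k + 1) / a x k := fun k hk => div_nonneg (ha x _) (ha x _)
  have hprod : ∏ k ∈ range n, (a x (k + 1) / a x k) / ζ = a x n / ζ ^ n := by
    rw [prod_ratio hζ hpos, ha0, div_one]
  have hζn : 0 < ζ ^ n := pow_pos hζ n
  have hprod2 : 19 / 10 ≤ ∏ k ∈ range n, (a x (k + 1) / a x k) / ζ := by
    rw [hprod, le_div_iff₀ hζn]
    nlinarith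
  rcases hnN.lt_or_eq with hlt | heq
  · -- short case
    have h3 := chain_sum (n := n) (κ' := κ / 2) (r := fun k => a x (k + 1) / a x k)
      (e := fun k => α x k / a x (k + 1))
      (d := fun k => z x k / a x (k + 1) - κ / 2 * (a x (k + 1) / a x k) ^ 2)
      (g := ge m ζ w) (v := wv m ζ w) (c := fun k => (k : ℝ) + 1)
      (fun k => by positivity) he (wv_nonneg hm hζ w)
      (fun p j => by
        push_cast
        have hp : (0 : ℝ) ≤ p := Nat.cast_nonneg p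
        have hj : (0 : ℝ) ≤ j := Nat.cast_nonneg j
        nlinarith [mul_nonneg hp hj]) hV h1 h2
    have h4 := sum_ge hm hs hsζ hC1 n
    have h5 : ∑ k ∈ range n, ((k : ℝ) + 1) * (a x (k + 1) / a x k - a x (k + 1 + 1) / a x (k + 1)) ≤
        ζ / 1000 := by
      refine le_trans (sum_le_sum fun k _ => ?_) (h3.trans h4)
      refine mul_le_mul_of_nonneg_left ?_ (by positivity)
      have h6 : 0 ≤ κ / 2 * (a x (k + 1) / a x k) ^ 2 := by positivity
      linarith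
    rw [abel_sum n (fun k => a x (k + 1) / a x k)] at h5
    have h6 : a x (n + 1) / a x n ≤ (1 + ε) * ζ := by
      rw [div_le_iff₀ (hpos n le_rfl)]
      have h7 := hup (n + 1) hlt
      have h8 : (1 + ε) * ζ * ((2 - ε) * ζ ^ n) ≤ (1 + ε) * ζ * a x n :=
        mul_le_mul_of_nonneg_left han (by positivity)
      rw [pow_succ] at h7
      have h9 : 0 ≤ ζ ^ n * ζ := by positivity
      have h10 : 0 ≤ (ε - ε ^ 2) * (ζ ^ n * ζ) := mul_nonneg (by nlinarith) h9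
      have h11 : (1 + ε) * ζ * ((2 - ε) * ζ ^ n) = 2 * (ζ ^ n * ζ) + (ε - ε ^ 2) * (ζ ^ n * ζ) := by
        ring
      linarith
    have h7 : ∑ k ∈ range n, (a x (k + 1) / a x k - ζ) / ζ ≤ 51 / 1000 := by
      rw [← sum_div, div_le_iff₀ hζ]
      have h8 : ∑ k ∈ range n, (a x (k + 1) / a x k - ζ) =
          ∑ k ∈ range n, (a x (k + 1) / a x k - a x (n + 1) / a x n) +
            n * (a x (n + 1) / a x n - ζ) := by
        rw [sum_sub_distrib, sum_sub_distrib, sum_const, sum_const, card_range]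
        simp only [nsmul_eq_mul]
        ring
      rw [h8]
      have h9 : n * (a x (n + 1) / a x n - ζ) ≤ n * (ε * ζ) :=
        mul_le_mul_of_nonneg_left (by linarith) hn0
      have h10 : n * (ε * ζ) ≤ 1 / 20 * ζ := by
        rw [← mul_assoc]
        exact mul_le_mul_of_nonneg_right hεn hζ.le
      linarith
    have h8 := hprod2.trans ((prod_le_exp hζ hr).trans (Real.exp_le_exp.2 h7))
    have h9 := Real.add_one_le_exp (-(51 / 1000 : ℝ))
    have h10 : Real.exp (51 / 1000) * Real.exp (-(51 / 1000)) = 1 := by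
      rw [← Real.exp_add]
      simp
    have h11 : 0 < Real.exp (51 / 1000) := Real.exp_pos _
    nlinarith
  · -- long case
    have h3 := chain_sum (n := n) (κ' := κ / 2) (r := fun k => a x (k + 1) / a x k)
      (e := fun k => α x k / a x (k + 1))
      (d := fun k => z x k / a x (k + 1) - κ / 2 * (a x (k + 1) / a x k) ^ 2)
      (g := ge m ζ w) (v := wv m ζ w) (c := fun _ => (1 : ℝ))
      (fun k => zero_le_one) he (wv_nonneg hm hζ w)
      (fun p j => by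
        have hj : (0 : ℝ) ≤ j := Nat.cast_nonneg j
        linarith) hV h1 h2
    have h4 := sum_ge hm hs hsζ hC1 n
    have h5 : ∑ k ∈ range n, (1 : ℝ) * ge m ζ w k ≤ ζ / 1000 := by
      refine le_trans (sum_le_sum fun k _ => ?_) h4
      refine mul_le_mul_of_nonneg_right ?_ (ge_nonneg hm hζ w k)
      linarith [Nat.cast_nonneg (α := ℝ) k]
    have h6 := h3.trans h5
    simp only [one_mul] at h6
    rw [sum_add_distrib, sum_range_sub' (fun k => a x (k + 1) / a x k), ← mul_sum] at h6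
    have h7 := sum_sq_ge hζ hr (by linarith)
    have h8 : a x (n + 1) / a x n ≤ 2 * ζ := by
      rw [div_le_iff₀ (hpos n le_rfl)]
      refine (hsub x n 1).trans (mul_le_mul_of_nonneg_right ?_ (ha x n))
      simpa using htle 1 le_rfl (hn1.trans hnN)
    have h9 : 0 ≤ a x (0 + 1) / a x 0 := div_nonneg (ha x _) (ha x _)
    have h10 : κ / 2 * (n * ζ ^ 2) ≤ κ / 2 * ∑ k ∈ range n, (a x (k + 1) / a x k) ^ 2 :=
      mul_le_mul_of_nonneg_left h7 (by positivity)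
    have h11 : κ / 2 * (n * ζ ^ 2) ≤ 3 * ζ := by linarith
    rw [heq] at h11
    have h12 : κ * s * N ≤ κ * ζ * N :=
      mul_le_mul_of_nonneg_right (mul_le_mul_of_nonneg_left hsζ hκ.le) (Nat.cast_nonneg N)
    have h13 : κ * ζ * N ≤ 6 := by
      have h14 : ζ * (κ * ζ * N) ≤ ζ * 6 := by nlinarith
      exact le_of_mul_le_mul_left h14 hζ
    linarith

end Pool.Agent.Lib.MP_8d00da_gt.F28
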